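import Pool.Agent.W763.PB.Stm

/-!
Project PB, part L2: strong limits of uniformly bounded operators.
-/

namespace Pool.Agent.W878.PB

open Pool.Agent.W763.PB Filter Topology

theorem l2 : S_L2 := by
  intro E _ _ _ A K S hS hK hT
  have hK' : ∀ n x, ‖A n x‖ ≤ |K| * ‖x‖ := fun n x =>
    (hK n x).trans (mul_le_mul_of_nonneg_right (le_abs_self K) (norm_nonneg x))
  have hK0 : 0 < |K| + 1 := by positivity
  have hlim : ∀ x, ∃ z, Tendsto (fun n => A n x) atTop (𝓝 z) := by
    intro x
    apply cauchySeq_tendsto_of_complete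
    rw [Metric.cauchySeq_iff]
    intro ε hε
    have hδ : 0 < ε / (3 * (|K| + 1)) := by positivity
    obtain ⟨y, hyS, hxy⟩ := Metric.mem_closure_iff.1 (hS x) _ hδ
    obtain ⟨z, hz⟩ := hT y hyS
    obtain ⟨N, hN⟩ := Metric.cauchySeq_iff.1 hz.cauchySeq (ε / 3) (by positivity)
    refine ⟨N, fun m hm n hn => ?_⟩
    have h1 : ∀ k, dist (A k x) (A k y) < ε / 3 := by
      intro k
      rw [dist_eq_norm, ← map_sub]
      refine (hK' k (x - y)).trans_lt ?_
      rw [dist_eq_norm] at hxy
      calc |K| * ‖x - y‖ ≤ (|K| + 1) * ‖x - y‖ :=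
            mul_le_mul_of_nonneg_right (by linarith) (norm_nonneg _)
        _ < (|K| + 1) * (ε / (3 * (|K| + 1))) := mul_lt_mul_of_pos_left hxy hK0
        _ = ε / 3 := by field_simp
    have h2 := hN m hm n hn
    have h3 := h1 m
    have h4 := h1 n
    rw [dist_comm] at h4
    calc dist (A m x) (A n x) ≤ dist (A m x) (A m y) + dist (A m y) (A n y)
          + dist (A n y) (A n x) := dist_triangle4 _ _ _ _
      _ < ε := by linarith
  choose f hf using hlim
  have hbd : ∀ x, ‖f x‖ ≤ K * ‖x‖ := fun x =>
    le_of_tendsto (hf x).norm (Eventually.of_forall fun n => hK n x)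
  let L : E →ₗ[ℂ] E :=
    { toFun := f
      map_add' := fun x y => by
        have h1 := hf (x + y)
        have h2 := (hf x).add (hf y)
        refine tendsto_nhds_unique h1 (h2.congr fun n => ?_)
        rw [map_add]
      map_smul' := fun c x => by
        have h1 := hf (c • x)
        have h2 := (hf x).const_smul c
        refine tendsto_nhds_unique h1 (h2.congr fun n => ?_)
        rw [map_smul] }
  exact ⟨L.mkContinuous K hbd, hf, hbd⟩

end Pool.Agent.W878.PB
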